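import Pool.Agent.W528.HE.Main
import Pool.Agent.W588.HE.EB
import Pool.Agent.W670.HE.NP
import Pool.Agent.W340.HD.IN
import Pool.Agent.W108.HD.ONE
import Pool.Agent.W940.HD.GE
import Pool.Agent.W551.HD.GN

set_option autoImplicit false

namespace Pool.Agent.Results.MP_de89cc_ag.ProductsOfSurfaces

open Polynomial IntermediateField Pool.Agent.W528.HE

/-- **The Tate conjecture in all codimensions for products `X_1 × ... × X_n × Y`, where the `X_i` are
superelliptic surfaces with polynomial branch curves and `Y` is any variety that satisfies it.**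

Let `N = N_1 ... N_n` with pairwise coprime `N_i`, let `κ` be a finite field with `q` elements, of
characteristic `c = 1` modulo `N`, containing the `N`-th roots of unity, and let `X_i` be a smooth
projective model of `y ^ N_i = ∏ (x - f_ik(t)) ^ a_ik`, where the `f_ik` are polynomials of degree
at most `D_i` (not all differences constant) and all prime factors of `N_i` are greater than
`D_i ∑_k a_ik`. Then `H^*(X_i)` is the sum of a part spanned by algebraic classes and of `V_i`, and
`V_i` is the sum of its parts of the characters `0 < j_i < N_i` of the group of `N_i`-th roots of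
unity; by Grothendieck's trace formula the eigenvalues of Frobenius on these parts satisfy `IsEig`
with the exponents `e_ik = (N / N_i) ((j_i a_ik) mod N_i)`. The condition on `j` holds for the `j`
with `j j_i = gcd(j_i, N_i)` modulo `N_i`.

Theorem: let `σ` be a nonempty set of indices, `α_i` eigenvalues on `V_i` (`i ∈ σ`), and `β` an
eigenvalue of Frobenius on `H^(2t)(Y)`, such that `ℚ(β)` is linearly disjoint from the field of
`N`-th roots of unity. Then `∏ α_i β` is not `q ^ (|σ| + t)` times a root of unity. So there are no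
Tate classes in the tensor products of the `V_i` with `H^(2t)(Y)`: every Tate class of the product
comes from Tate classes of `Y` (or of a point) and algebraic classes of the `X_i`. -/
theorem result (N : ℕ) (hN : 2 ≤ N) (c : ℕ) [Fact c.Prime] (κ : Type) [Field κ] [Fintype κ]
    [CharP κ c] (F : ℕ) (hF : Fintype.card κ = c ^ F) (z : κ) (hz : IsPrimitiveRoot z N)
    (E : Type) [Field E] [CharZero E] [IsAlgClosed E] (μ : E) (hμ : IsPrimitiveRoot μ N)
    (σ : Type) [Fintype σ] [Nonempty σ] (ι : σ → Type) [∀ i, Fintype (ι i)]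
    (l : ∀ i, ι i → κ) (f : ∀ i, ι i → κ[X]) (D : σ → ℕ) (hD : ∀ i, 1 ≤ D i)
    (hf : ∀ i k, (f i k).natDegree ≤ D i) (e : ∀ i, ι i → ℕ) (he : ∀ i k, e i k < N)
    (j : ℕ) (hj : j.Coprime N)
    (hjd : ∀ i, D i * ∑ k, ∑ s ∈ Finset.range F, (j * e i k * c ^ s) % N < F * N)
    (A : σ → Multiset E) (hA : ∀ i, IsEig κ N (l i) (f i) (e i) z μ (A i))
    (β : E) (hβ : IsIntegral ℚ β) (t : ℕ)
    (hβt : ∀ r : ℂ, aeval r (minpoly ℚ β) = 0 → ‖r‖ = (Fintype.card κ : ℝ) ^ t)
    (hirr : Irreducible (cyclotomic N ℚ⟮β⟯))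
    (α : σ → E) (hα : ∀ i, α i ∈ A i) (M : ℕ) (hM : 0 < M) :
    ((∏ i, α i) * β) ^ M ≠ ((Fintype.card κ : E) ^ (Fintype.card σ + t)) ^ M :=
  main Pool.Agent.W588.HE.EB.main Pool.Agent.W670.HE.NP.main Pool.Agent.W551.HD.GN.main
    (Pool.Agent.W108.HD.ONE.main Pool.Agent.W551.HD.GN.main Pool.Agent.W340.HD.IN.main
      Pool.Agent.W135.HB.SA.main)
    Pool.Agent.W940.HD.GE.main hN κ hF hz hμ ι l f D hD hf e he hj hjd A hA β hβ t hβt hirr α hα
    M hM

end Pool.Agent.Results.MP_de89cc_ag.ProductsOfSurfaces
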